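import Pool.Graph.R_seed8.Helper970.SH.Main4

set_option autoImplicit false

/-!
# One two-generator group with explicit complexes in infinitely many simple-homotopy types

`Gam` is the group `⟨d, y ∣ y² d¹⁵ y⁻² d¹⁵, d¹⁰ y³ d⁻¹⁰ y³⟩` and `fam k` is the finite presentation
`⟨d, y, a₁, …, a_k ∣ y² d¹⁵ y⁻² d¹⁵, d¹⁰ y³ d⁻¹⁰ y³, a_m³ c a_m⁻² c⁻² (m = 1, …, k)⟩`, `c = d²⁴`, of the
same group. Both have as many relators as generators. The definitions (presentations, the cellular
chain complexes, homotopy equivalence and simple-homotopy equivalence of the standard complexes) are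
those of the library file `Helper970/SH/Defs.lean`.
-/

namespace Pool.Agent.Results.MP_50ef00_gt.ExplicitBalancedFamily

open H970SH

/-- The group `Gam` has at most `180` complex characters. -/
theorem card_char : Nat.card (Gam →* ℂ) ≤ 180 := by
  let Φ : (Gam →* ℂ) → (rootsOfUnity 30 ℂ) × (rootsOfUnity 6 ℂ) := fun χ =>
    (⟨χ.toHomUnits gd, (mem_rootsOfUnity _ _).2 (j25056_key χ.toHomUnits).1⟩,
      ⟨χ.toHomUnits gy, (mem_rootsOfUnity _ _).2 (j25056_key χ.toHomUnits).2⟩)
  have hΦ : Function.Injective Φ := by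
    intro χ χ' h
    have h1 : χ.toHomUnits gd = χ'.toHomUnits gd :=
      congrArg (fun p : (rootsOfUnity 30 ℂ) × (rootsOfUnity 6 ℂ) => (p.1 : ℂˣ)) h
    have h2 : χ.toHomUnits gy = χ'.toHomUnits gy :=
      congrArg (fun p : (rootsOfUnity 30 ℂ) × (rootsOfUnity 6 ℂ) => (p.2 : ℂˣ)) h
    have h3 := gam_hom_ext χ.toHomUnits χ'.toHomUnits h1 h2
    ext g
    have h4 := congrArg (fun f : Gam →* ℂˣ => ((f g : ℂˣ) : ℂ)) h3
    simpa using h4
  have h := Nat.card_le_card_of_injective Φ hΦ
  rw [Nat.card_prod, Complex.card_rootsOfUnity, Complex.card_rootsOfUnity] at h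
  exact h

/-- The number of members related to a given one is bounded independently of that member. -/
theorem rel_bound (k : ℕ) : {l | Rel k l}.Finite ∧ {l | Rel k l}.ncard ≤ 180 ^ 4 := by
  obtain ⟨q, h00, h11, hN⟩ := quad_exists
  have hfin := char_finite
  refine ⟨rel_fin k, ?_⟩
  have hch : ∀ l : {l | Rel k l}, ∃ ψ : Gam ≃* Gam, ∀ α β : CH Gam,
      (∃ g, (α.χ * β.χ) g ≠ 1) →
      ‖kap (projk k) (famRel k) (α.comap ψ.toMonoidHom) (β.comap ψ.toMonoidHom)‖ =
        ‖kap (projk l) (famRel l) α β‖ := fun l => l.2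
  choose ψ hψ using hch
  let F : {l | Rel k l} → (Gam →* ℂ) × (Gam →* ℂ) × (Gam →* ℂ) × (Gam →* ℂ) := fun l =>
    (q.α₀.χ.comp (ψ l).toMonoidHom, q.α₁.χ.comp (ψ l).toMonoidHom,
      q.β₀.χ.comp (ψ l).toMonoidHom, q.β₁.χ.comp (ψ l).toMonoidHom)
  have hF : Function.Injective F := by
    intro l m hlm
    simp only [F, Prod.mk.injEq] at hlm
    apply Subtype.ext
    exact index_eq q h00 h11 hN k l m (ψ l) (ψ m) (hψ l) (hψ m) hlm.1 hlm.2.1 hlm.2.2.1 hlm.2.2.2
  rw [← Nat.card_coe_set_eq]
  refine (Nat.card_le_card_of_injective F hF).trans ?_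
  rw [Nat.card_prod, Nat.card_prod, Nat.card_prod]
  have h := card_char
  calc Nat.card (Gam →* ℂ) * (Nat.card (Gam →* ℂ) * (Nat.card (Gam →* ℂ) * Nat.card (Gam →* ℂ)))
      ≤ 180 * (180 * (180 * 180)) := by gcongr
    _ = 180 ^ 4 := by norm_num

/-- The presentations `fam k`, `k = 0, 1, 2, …`, with `k + 2` generators and `k + 2` relators,
1. all present the group `Gam`, which has two generators and two relators (`fam 0`);
2. have homotopy equivalent standard complexes;
3. fall into simple-homotopy types each of which contains at most `180 ^ 4` of them;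
4. in particular infinitely many of them are pairwise not simple-homotopy equivalent. -/
theorem result :
    (∀ k : ℕ, Nonempty ((fam k).Pi1 ≃* Gam)) ∧
    (∀ k l : ℕ, HomotopyEquivalent (fam k) (fam l)) ∧
    (∀ k : ℕ, {l | SimpleHomotopyEquivalent (fam k) (fam l)}.Finite ∧
      {l | SimpleHomotopyEquivalent (fam k) (fam l)}.ncard ≤ 180 ^ 4) ∧
    ∃ f : ℕ → ℕ, StrictMono f ∧
      ∀ i j, i ≠ j → ¬ SimpleHomotopyEquivalent (fam (f i)) (fam (f j)) := by
  refine ⟨fun k => ?_, fun k l => fam_equiv k l hkey, ?_, ?_⟩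
  · obtain ⟨e, -⟩ := famk_iso k hkey
    exact ⟨e⟩
  · intro k
    have hB := rel_bound k
    have hsub : {l | SimpleHomotopyEquivalent (fam k) (fam l)} ⊆ {l | Rel k l} :=
      fun l hl => rel_of_simple k l hl
    exact ⟨hB.1.subset hsub, (Set.ncard_le_ncard hsub hB.1).trans hB.2⟩
  · let r : ℕ → ℕ → Prop := fun k l => k < l ∧
      ¬ SimpleHomotopyEquivalent (fam k) (fam l) ∧ ¬ SimpleHomotopyEquivalent (fam l) (fam k)
    have hfin : ∀ k, {l | ¬ r k l}.Finite := by
      intro k
      refine ((Set.finite_Iic k).union (rel_fin k)).subset fun l hl => ?_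
      simp only [r, Set.mem_ofPred_eq, not_and_or, not_not, not_lt] at hl
      rcases hl with h | h | h
      · exact Or.inl h
      · exact Or.inr (rel_of_simple k l h)
      · exact Or.inr (rel_symm k l (rel_of_simple l k h))
    obtain ⟨f, -, hf⟩ := exists_seq_of_forall_finset_exists (fun _ : ℕ => True) r (by
      intro s _
      have h1 : (⋃ k ∈ s, {l | ¬ r k l}).Finite :=
        Set.Finite.biUnion s.finite_toSet fun k _ => hfin k
      obtain ⟨y, hy⟩ := h1.infinite_compl.nonempty
      refine ⟨y, trivial, fun x hx => ?_⟩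
      by_contra hcon
      exact hy (Set.mem_biUnion hx hcon))
    refine ⟨f, fun m n h => (hf m n h).1, fun i j hij => ?_⟩
    rcases lt_or_gt_of_ne hij with h | h
    · exact (hf i j h).2.1
    · exact (hf j i h).2.2

end Pool.Agent.Results.MP_50ef00_gt.ExplicitBalancedFamily
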